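import Pool.Agent.Lib.MP_6bc78b_nt.MS.GL.Iface
import Pool.Agent.Lib.MP_6bc78b_nt.MS.P4.Iface

/-!
# MP_6bc78b_nt, project GL, row SPL: isolated zeros
-/

namespace Pool.Agent.Lib.MP_6bc78b_nt.MS.GL.H19

open Pool.Agent.Lib.MP_6bc78b_nt Pool.Agent.Lib.MP_6bc78b_nt.LL Pool.Agent.Lib.MP_6bc78b_nt.MS
  Pool.Agent.Lib.MP_6bc78b_nt.MS.P1 Pool.Agent.Lib.MP_6bc78b_nt.MS.QZ
  Pool.Agent.Lib.MP_6bc78b_nt.MS.GL

/-- If the number of zeros near `γ` is one then `γ` is simple and no other zero is near. -/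
lemma isolated {c T γ : ℝ} (hc : 0 ≤ c / Real.log T) (hm : 1 ≤ mz γ) (h : nC c T γ = 1) :
    mz γ = 1 ∧ ∀ g : ℝ, g ≠ γ → |g - γ| ≤ c / Real.log T → mz g = 0 := by
  classical
  unfold nC at h
  set S : Set ℝ := {g : ℝ | |g - γ| ≤ c / Real.log T} with hS
  have hγS : γ ∈ S := by rw [hS]; simpa using hc
  have hfin : (S ∩ Function.support (fun g : ℝ => (mz g : ℝ))).Finite := by
    by_contra hinf
    rw [finsum_mem_eq_zero_of_infinite hinf] at h
    exact zero_ne_one h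
  rw [finsum_mem_eq_sum (fun g : ℝ => (mz g : ℝ)) hfin] at h
  have hγF : γ ∈ hfin.toFinset := by
    rw [Set.Finite.mem_toFinset]
    refine ⟨hγS, ?_⟩
    rw [Function.mem_support]
    exact_mod_cast (by omega : mz γ ≠ 0)
  have hsum : ∑ g ∈ hfin.toFinset, mz g = 1 := by exact_mod_cast h
  rw [← Finset.add_sum_erase _ _ hγF] at hsum
  have h1 : mz γ = 1 := by omega
  have h2 : ∑ g ∈ hfin.toFinset.erase γ, mz g = 0 := by omega
  refine ⟨h1, ?_⟩
  intro g hg hgS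
  by_contra hne
  have hgF : g ∈ hfin.toFinset.erase γ := by
    rw [Finset.mem_erase, Set.Finite.mem_toFinset]
    refine ⟨hg, hgS, ?_⟩
    rw [Function.mem_support]
    exact_mod_cast hne
  exact hne ((Finset.sum_eq_zero_iff_of_nonneg (fun _ _ => Nat.zero_le _)).mp h2 g hgF)

/-- SPL: isolated zeros. -/
theorem spl (hP : PfrStatement) (hz : ZfacStatement) : SplStatement := by
  intro c K T γ hc hc1 hK hT hKT hγ hn
  have hL : 0 < Real.log T := Real.log_pos (by linarith)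
  have hcL : 0 < c / Real.log T := div_pos hc hL
  have hδ : 0 < K / Real.log T := div_pos (by linarith) hL
  have hm : 1 ≤ mz γ := hz.2.2.1 γ hγ.2.2
  obtain ⟨hm1, hiso⟩ := isolated hcL.le hm hn
  refine ⟨hm1, ?_⟩
  set δ : ℝ := K / Real.log T with hδdef
  obtain ⟨hsum, -, -⟩ := hP γ δ hδ hKT
  have hKc : 0 < 1 + K ^ 2 / c ^ 2 := by positivity
  have hle : ∀ g : ℝ, (if g = γ then 0 else (mz g : ℝ) * Real.log (1 + δ ^ 2 / (γ - g) ^ 2)) ≤
      (1 + K ^ 2 / c ^ 2) * δ * ((mz g : ℝ) * (δ / (δ ^ 2 + (γ - g) ^ 2))) := by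
    intro g
    split_ifs with hg
    · positivity
    by_cases hmg : mz g = 0
    · simp [hmg]
    have hfar : c / Real.log T < |g - γ| := by
      by_contra hcon
      exact hmg (hiso g hg (not_lt.mp hcon))
    have hu : 0 < (γ - g) ^ 2 := by
      have : γ - g ≠ 0 := sub_ne_zero.mpr (Ne.symm hg)
      positivity
    have hu2 : (c / Real.log T) ^ 2 < (γ - g) ^ 2 := by
      have h1 : (γ - g) ^ 2 = |g - γ| ^ 2 := by rw [sq_abs]; ring
      rw [h1]
      exact pow_lt_pow_left₀ hfar hcL.le (by norm_num)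
    have hv : δ ^ 2 / (γ - g) ^ 2 ≤ K ^ 2 / c ^ 2 := by
      have h1 : δ ^ 2 / (γ - g) ^ 2 ≤ δ ^ 2 / (c / Real.log T) ^ 2 :=
        div_le_div_of_nonneg_left (by positivity) (by positivity) hu2.le
      have h2 : δ ^ 2 / (c / Real.log T) ^ 2 = K ^ 2 / c ^ 2 := by
        rw [hδdef]
        field_simp
      linarith
    have hlog : Real.log (1 + δ ^ 2 / (γ - g) ^ 2) ≤ δ ^ 2 / (γ - g) ^ 2 := by
      have := Real.log_le_sub_one_of_pos (show 0 < 1 + δ ^ 2 / (γ - g) ^ 2 by positivity)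
      linarith
    have hfr : δ ^ 2 / (γ - g) ^ 2 =
        (1 + δ ^ 2 / (γ - g) ^ 2) * (δ * (δ / (δ ^ 2 + (γ - g) ^ 2))) := by
      have h1 : (γ - g) ^ 2 ≠ 0 := hu.ne'
      have h2 : δ ^ 2 + (γ - g) ^ 2 ≠ 0 := by positivity
      field_simp
      ring
    have h3 : Real.log (1 + δ ^ 2 / (γ - g) ^ 2) ≤
        (1 + K ^ 2 / c ^ 2) * (δ * (δ / (δ ^ 2 + (γ - g) ^ 2))) := by
      refine hlog.trans ?_
      rw [hfr]
      apply mul_le_mul_of_nonneg_right _ (by positivity)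
      linarith
    calc (mz g : ℝ) * Real.log (1 + δ ^ 2 / (γ - g) ^ 2)
        ≤ (mz g : ℝ) * ((1 + K ^ 2 / c ^ 2) * (δ * (δ / (δ ^ 2 + (γ - g) ^ 2)))) :=
          mul_le_mul_of_nonneg_left h3 (Nat.cast_nonneg _)
      _ = _ := by ring
  have hnn : ∀ g : ℝ, 0 ≤
      (if g = γ then 0 else (mz g : ℝ) * Real.log (1 + δ ^ 2 / (γ - g) ^ 2)) := by
    intro g
    split_ifs with hg
    · exact le_rfl
    · apply mul_nonneg (Nat.cast_nonneg _)
      apply Real.log_nonneg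
      have : 0 ≤ δ ^ 2 / (γ - g) ^ 2 := by positivity
      linarith
  have hs2 := hsum.mul_left ((1 + K ^ 2 / c ^ 2) * δ)
  have hs1 := Summable.of_nonneg_of_le hnn hle hs2
  unfold SL PD
  calc _ ≤ _ := hs1.tsum_le_tsum hle hs2
    _ = _ := by rw [tsum_mul_left]

end Pool.Agent.Lib.MP_6bc78b_nt.MS.GL.H19
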